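import Pool.Agent.E8helper59.TS.Stm2

/-! Project TS (MP_b907b5_co), piece TS15. -/

set_option autoImplicit false
open MeasureTheory Set Filter Topology
open scoped Pointwise ENNReal

namespace Pool.Agent.E8helper77.TS2

open Pool.Agent.E8helper59.TS

theorem vol_ball (m : ℕ) {r : ℝ} (hr : 0 ≤ r) :
    volume (Metric.closedBall (0 : E m) r) = ENNReal.ofReal ((2 * r) ^ (m + 2)) := by
  have e1 : Metric.closedBall (0 : E m) r =
      (Metric.closedBall (0 : ℝ) r ×ˢ Metric.closedBall (0 : ℝ) r) ×ˢ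
        Metric.closedBall (0 : Fin m → ℝ) r := by
    rw [closedBall_prod_same, closedBall_prod_same]
    rfl
  have h2 : (0 : ℝ) ≤ 2 * r := by linarith
  rw [e1, Measure.volume_eq_prod, Measure.prod_prod, Measure.volume_eq_prod, Measure.prod_prod,
    Real.volume_closedBall, Real.volume_pi_closedBall _ hr, ← ENNReal.ofReal_mul h2,
    ← ENNReal.ofReal_mul (by positivity), Fintype.card_fin]
  congr 1
  ring

instance inst2 : (volume : Measure (ℝ × ℝ)).IsAddHaarMeasure := by
  rw [Measure.volume_eq_prod]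
  infer_instance

instance instE (m : ℕ) : (volume : Measure (E m)).IsAddHaarMeasure := by
  show (volume : Measure ((ℝ × ℝ) × (Fin m → ℝ))).IsAddHaarMeasure
  rw [Measure.volume_eq_prod]
  exact Measure.prod.instIsAddHaarMeasure _ _

theorem t_CNT3 (h1 : S_CNT2) (h2 : S_RED) (h3 : S_CAP2) : S_CNT3 := by
  intro m D v L K P₀ hDc hDconv hDi hK hsub hP hmin
  obtain ⟨hV0, hVtop, hcap⟩ := h3 m D v L P₀ hDc hDconv hDi hP hmin
  set V0 : ℝ := (volume P₀).toReal with hV0def
  set δ : ℝ := |LinearMap.det ((L : E m →L[ℝ] E m) : E m →ₗ[ℝ] E m)| with hδdef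
  have hδ : 0 < δ := by
    rw [hδdef, abs_pos]
    exact (LinearEquiv.isUnit_det' L.toLinearEquiv).ne_zero
  have hA : 0 ≤ V0 / δ := by positivity
  obtain ⟨C0, hC0, hcnt⟩ := h1 m D (V0 / δ) hA hDc hDconv hDi hcap
  set nL : ℝ := ‖(L : E m →L[ℝ] E m)‖ with hnL
  set nS : ℝ := ‖(L.symm : E m →L[ℝ] E m)‖ with hnS
  have hnL0 : 0 ≤ nL := norm_nonneg _
  have hnS0 : 0 ≤ nS := norm_nonneg _
  have hv0 : 0 ≤ ‖v‖ := norm_nonneg _
  refine ⟨max (2 * ‖v‖ + 2 * (nL * C0)) (V0 * (2 * nS * (1 + ‖v‖)) ^ m), by positivity, ?_⟩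
  intro T hT R F hR hF
  have hT' := h2 m D v L K T hsub hT
  set W : Set (E m) := L.symm '' Metric.closedBall 0 (R + ‖v‖) with hW
  have hWc : IsCompact W := (isCompact_closedBall _ _).image L.symm.continuous
  have hWconv : Convex ℝ W :=
    (convex_closedBall (0 : E m) (R + ‖v‖)).is_linear_image
      (f := L.symm) ⟨fun x y => map_add _ x y, fun c x => map_smul _ c x⟩
  have hF' : ∀ t ∈ F.image L.symm, t ∈ L.symm '' T ∧ (fun x => t + x) '' Cyl m D ⊆ W := by
    intro t' ht'
    rw [Finset.mem_image] at ht'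
    obtain ⟨t, ht, rfl⟩ := ht'
    refine ⟨⟨t, (hF t ht).1, rfl⟩, ?_⟩
    rintro _ ⟨x, hx, rfl⟩
    refine ⟨t + L x, ?_, ?_⟩
    · have h4 : t + (v + L x) ∈ Metric.closedBall (0 : E m) R :=
        (hF t ht).2 ⟨v + L x, hsub ⟨x, hx, rfl⟩, rfl⟩
      rw [mem_closedBall_zero_iff] at h4 ⊢
      have h5 : t + L x = (t + (v + L x)) - v := by abel
      rw [h5]
      exact (norm_sub_le _ _).trans (by linarith)
    · show L.symm (t + L x) = L.symm t + x
      rw [map_add, L.symm_apply_apply]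
  have key := hcnt (L.symm '' T) hT' W (F.image L.symm) hWc hWconv hF'
  rw [Finset.card_image_of_injective _ L.symm.injective] at key
  -- first volume
  have hS1 : δ * (volume (W + Metric.closedBall 0 C0)).toReal ≤
      (2 * (R + ‖v‖ + nL * C0)) ^ (m + 2) := by
    have e1 : volume (L '' (W + Metric.closedBall 0 C0)) =
        ENNReal.ofReal δ * volume (W + Metric.closedBall 0 C0) :=
      Measure.addHaar_image_continuousLinearEquiv volume L _
    have e2 : L '' (W + Metric.closedBall 0 C0) ⊆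
        Metric.closedBall (0 : E m) (R + ‖v‖ + nL * C0) := by
      rintro _ ⟨_, ⟨_, ⟨a, ha, rfl⟩, b, hb, rfl⟩, rfl⟩
      rw [mem_closedBall_zero_iff] at ha hb ⊢
      show ‖L (L.symm a + b)‖ ≤ _
      rw [map_add, L.apply_symm_apply]
      refine (norm_add_le _ _).trans (add_le_add ha ?_)
      exact ((L : E m →L[ℝ] E m).le_opNorm b).trans (mul_le_mul_of_nonneg_left hb hnL0)
    have e3 : ENNReal.ofReal δ * volume (W + Metric.closedBall 0 C0) ≤
        ENNReal.ofReal ((2 * (R + ‖v‖ + nL * C0)) ^ (m + 2)) := by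
      rw [← e1, ← vol_ball m (by positivity)]
      exact measure_mono e2
    have e4 := ENNReal.toReal_mono ENNReal.ofReal_ne_top e3
    rw [ENNReal.toReal_mul, ENNReal.toReal_ofReal hδ.le, ENNReal.toReal_ofReal (by positivity)] at e4
    exact e4
  -- second volume
  have hS2 : (volume (Prod.snd '' W)).toReal ≤ (2 * (nS * (R + ‖v‖))) ^ m := by
    have e2 : Prod.snd '' W ⊆ Metric.closedBall (0 : Fin m → ℝ) (nS * (R + ‖v‖)) := by
      rintro _ ⟨_, ⟨a, ha, rfl⟩, rfl⟩
      rw [mem_closedBall_zero_iff] at ha ⊢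
      refine (norm_snd_le _).trans ?_
      exact ((L.symm : E m →L[ℝ] E m).le_opNorm a).trans (mul_le_mul_of_nonneg_left ha hnS0)
    have e3 : volume (Prod.snd '' W) ≤ ENNReal.ofReal ((2 * (nS * (R + ‖v‖))) ^ m) := by
      refine (measure_mono e2).trans (le_of_eq ?_)
      rw [Real.volume_pi_closedBall _ (by positivity), Fintype.card_fin]
    have e4 := ENNReal.toReal_mono ENNReal.ofReal_ne_top e3
    rwa [ENNReal.toReal_ofReal (by positivity)] at e4
  have hm1 : (2 * (nS * (R + ‖v‖))) ^ m ≤ (2 * nS * (1 + ‖v‖)) ^ m * (R + 1) ^ m := by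
    rw [← mul_pow]
    refine pow_le_pow_left₀ (by positivity) ?_ m
    have : R + ‖v‖ ≤ (1 + ‖v‖) * (R + 1) := by nlinarith
    calc 2 * (nS * (R + ‖v‖)) ≤ 2 * (nS * ((1 + ‖v‖) * (R + 1))) := by gcongr
      _ = 2 * nS * (1 + ‖v‖) * (R + 1) := by ring
  have k1 : (F.card : ℝ) * V0 = δ * ((F.card : ℝ) * (V0 / δ)) := by
    field_simp
  rw [k1]
  calc δ * ((F.card : ℝ) * (V0 / δ)) ≤
      δ * ((volume (W + Metric.closedBall 0 C0)).toReal + V0 / δ * (volume (Prod.snd '' W)).toReal) :=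
        mul_le_mul_of_nonneg_left key hδ.le
    _ = δ * (volume (W + Metric.closedBall 0 C0)).toReal + V0 * (volume (Prod.snd '' W)).toReal := by
        field_simp
    _ ≤ (2 * (R + ‖v‖ + nL * C0)) ^ (m + 2) +
        V0 * ((2 * nS * (1 + ‖v‖)) ^ m * (R + 1) ^ m) := by
        gcongr
        exact hS2.trans hm1
    _ ≤ _ := by
        refine add_le_add ?_ ?_
        · refine pow_le_pow_left₀ (by positivity) ?_ _
          have := le_max_left (2 * ‖v‖ + 2 * (nL * C0)) (V0 * (2 * nS * (1 + ‖v‖)) ^ m)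
          linarith
        · rw [← mul_assoc]
          refine mul_le_mul_of_nonneg_right (le_max_right _ _) (by positivity)

end Pool.Agent.E8helper77.TS2
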