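import Pool.Agent.E8helper59.TS.Stm2

/-! Project TS (MP_b907b5_co), piece TS13. -/

set_option autoImplicit false
open MeasureTheory Set Filter Topology
open scoped Pointwise ENNReal

namespace Pool.Agent.E8helper77.TS2

open Pool.Agent.E8helper59.TS

theorem t_RED : S_RED := by
  intro m D v L K T hsub hT t' ht' s' hs' hne
  obtain ⟨t, ht, rfl⟩ := ht'
  obtain ⟨s, hs, rfl⟩ := hs'
  have hts : t ≠ s := by
    rintro rfl
    exact hne rfl
  obtain ⟨f, c, hf, h1, h2, h3⟩ := hT t ht s hs hts
  have hin : ∀ x ∈ Cyl m D, v + L x ∈ K := fun x hx => hsub ⟨x, hx, rfl⟩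
  refine ⟨f.comp (L : E m →L[ℝ] E m), c - f v, ?_, ?_, ?_, ?_⟩
  · intro h0
    apply hf
    refine ContinuousLinearMap.ext fun x => ?_
    have h4 := congrArg (fun g : E m →L[ℝ] ℝ => g (L.symm x)) h0
    simpa using h4
  · intro x hx
    have h4 := h1 _ (hin x hx)
    simp only [map_add] at h4
    show f (L (L.symm t + x)) ≤ c - f v
    rw [map_add, L.apply_symm_apply, map_add]
    linarith
  · intro x hx
    have h4 := h2 _ (hin x hx)
    simp only [map_add] at h4
    show c - f v ≤ f (L (L.symm s + x))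
    rw [map_add, L.apply_symm_apply, map_add]
    linarith
  · rintro _ ⟨r, hr, rfl⟩ y hy hyc
    have hyc' : f (L y) = c - f v := hyc
    let φ : E m ≃ₜ E m := L.toHomeomorph.trans (Homeomorph.addLeft v)
    have hφ : ∀ z, φ z = v + L z := fun _ => rfl
    have h5 : φ y ∈ interior ((fun x => r + x) '' K) := by
      have h6 : φ '' ((fun x => L.symm r + x) '' Cyl m D) ⊆ (fun x => r + x) '' K := by
        rintro _ ⟨_, ⟨x, hx, rfl⟩, rfl⟩
        refine ⟨v + L x, hin x hx, ?_⟩
        show r + (v + L x) = v + L (L.symm r + x)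
        rw [map_add, L.apply_symm_apply]
        abel
      exact interior_mono h6 (φ.isOpenMap.image_interior_subset _ ⟨y, hy, rfl⟩)
    apply h3 r hr _ h5
    rw [hφ, map_add, hyc']
    ring

end Pool.Agent.E8helper77.TS2
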